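import Pool.Agent.Y282.CS.Main

set_option autoImplicit false

/-!
# `ℓ¹(ℚ⁺, ω)` contains no nonzero continuous real semigroup
-/

namespace Pool.Agent.Results.MP_46f8bc_an.GaussianWeightNoSemigroup

open Filter Topology

/-- `f` is an element of `ℓ¹(ℚ⁺, ω)`: the formal sum `∑ f(q) X^q` runs over the strictly positive
rationals and `∑ |f(q)| ω(q) < ∞`. -/
def Mem (ω : ℚ → ℝ) (f : ℚ → ℂ) : Prop :=
  (∀ q ≤ 0, f q = 0) ∧ Summable fun q => ‖f q‖ * ω q

/-- The norm of `ℓ¹(ℚ⁺, ω)`. -/
noncomputable def nrm (ω : ℚ → ℝ) (f : ℚ → ℂ) : ℝ := ∑' q, ‖f q‖ * ω q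

/-- The product of `ℓ¹(ℚ⁺, ω)`, given by `X^p X^q = X^(p+q)`. -/
noncomputable def conv (f g : ℚ → ℂ) : ℚ → ℂ := fun r => ∑' p : ℚ, f p * g (r - p)

/-- A norm-continuous family `(a t)_{t > 0}` in `ℓ¹(ℚ⁺, ω)` with `a (s + t) = a s * a t`. -/
structure ContSemigroup (ω : ℚ → ℝ) (a : ℝ → ℚ → ℂ) : Prop where
  mem : ∀ t, 0 < t → Mem ω (a t)
  mul : ∀ s t, 0 < s → 0 < t → a (s + t) = conv (a s) (a t)
  cont : ∀ t, 0 < t → Tendsto (fun s => nrm ω fun q => a s q - a t q) (𝓝 t) (𝓝 0)

theorem main {ω : ℚ → ℝ} (hω : ∀ N : ℕ, ∃ c : ℝ, 0 < c ∧ ∀ q : ℚ, 0 < q → q ≤ N → c ≤ ω q)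
    {a : ℝ → ℚ → ℂ} (ha : ContSemigroup ω a) (t : ℝ) (ht : 0 < t) : a t = 0 := by
  have hω0 : ∀ q : ℚ, 0 < q → 0 ≤ ω q := by
    intro q hq
    obtain ⟨N, hN⟩ := exists_nat_ge q
    obtain ⟨c, hc, h⟩ := hω N
    exact hc.le.trans (h q hq hN)
  funext r
  obtain ⟨N, hN⟩ := exists_nat_gt (1440 * |(r : ℝ)|)
  have hN0 : (0 : ℝ) < N := lt_of_le_of_lt (by positivity) hN
  have hN1 : 0 < N := by exact_mod_cast hN0
  obtain ⟨c, hc, hcω⟩ := hω N
  set b : ℝ → ℚ → ℂ := fun x r => if r ≤ N then a x r else 0 with hb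
  have hpt : ∀ f : ℚ → ℂ, (∀ q ≤ 0, f q = 0) → ∀ r : ℚ,
      ‖(if r ≤ N then f r else 0 : ℂ)‖ ≤ c⁻¹ * (‖f r‖ * ω r) := by
    intro f hf r
    by_cases hr : r ≤ 0
    · rw [hf r hr]
      simp
    · push Not at hr
      split_ifs with h
      · rw [inv_mul_eq_div, le_div_iff₀ hc]
        exact mul_le_mul_of_nonneg_left (hcω r hr h) (norm_nonneg _)
      · rw [norm_zero]
        have := hω0 r hr
        positivity
  have hloc : Pool.Agent.Y282.CS.Loc N b := by
    refine ⟨?_, ?_, ?_, ?_⟩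
    · intro x hx
      exact Summable.of_nonneg_of_le (fun _ => norm_nonneg _) (hpt (a x) (ha.mem x hx).1)
        ((ha.mem x hx).2.mul_left _)
    · intro x hx r hr
      rw [hb]
      simp only
      rw [(ha.mem x hx).1 r hr, ite_self]
    · intro x hx
      have h1 := (ha.cont x hx).const_mul c⁻¹
      rw [mul_zero] at h1
      refine tendsto_of_tendsto_of_tendsto_of_le_of_le' tendsto_const_nhds h1 ?_ ?_
      · exact Eventually.of_forall fun y => tsum_nonneg fun r => norm_nonneg _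
      · filter_upwards [lt_mem_nhds hx] with y hy
        have hz : ∀ q ≤ 0, a y q - a x q = 0 := by
          intro q hq
          rw [(ha.mem y hy).1 q hq, (ha.mem x hx).1 q hq, sub_zero]
        have hs : Summable fun q => ‖a y q - a x q‖ * ω q := by
          refine Summable.of_nonneg_of_le (fun q => ?_) (fun q => ?_)
            ((ha.mem y hy).2.add (ha.mem x hx).2)
          · by_cases hq : q ≤ 0
            · rw [hz q hq]; simp
            · push Not at hq
              exact mul_nonneg (norm_nonneg _) (hω0 q hq)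
          · by_cases hq : q ≤ 0
            · rw [hz q hq, (ha.mem y hy).1 q hq, (ha.mem x hx).1 q hq]; simp
            · push Not at hq
              rw [← add_mul]
              exact mul_le_mul_of_nonneg_right (norm_sub_le _ _) (hω0 q hq)
        have h2 : ∀ r, ‖b y r - b x r‖ ≤ c⁻¹ * (‖a y r - a x r‖ * ω r) := by
          intro r
          have h3 := hpt (fun q => a y q - a x q) hz r
          have h4 : b y r - b x r = if r ≤ N then a y r - a x r else 0 := by
            rw [hb]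
            simp only
            split_ifs
            · rfl
            · rw [sub_zero]
          rw [h4]
          exact h3
        unfold nrm
        rw [← tsum_mul_left]
        exact (Summable.of_nonneg_of_le (fun _ => norm_nonneg _) h2 (hs.mul_left _)).tsum_le_tsum h2
          (hs.mul_left _)
    · intro x y hx hy r hr
      have h1 : b (x + y) r = a (x + y) r := by
        rw [hb]
        simp only
        rw [if_pos hr]
      rw [h1, ha.mul x y hx hy]
      unfold conv
      congr 1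
      funext p
      rw [hb]
      simp only
      by_cases hp : p ≤ 0
      · rw [(ha.mem x hx).1 p hp, ite_self, zero_mul, zero_mul]
      · push Not at hp
        by_cases hq : r - p ≤ 0
        · rw [(ha.mem y hy).1 _ hq, ite_self, mul_zero, mul_zero]
        · push Not at hq
          rw [if_pos (by linarith), if_pos (by linarith)]
  have hrN : (r : ℝ) < N / 1440 := by
    rw [lt_div_iff₀ (by norm_num)]
    have := le_abs_self (r : ℝ)
    linarith
  have h1 := Pool.Agent.Y282.CS.loc_support hN1 hloc ht r hrN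
  rw [hb] at h1
  simp only at h1
  rw [if_pos] at h1
  · exact h1
  · have h2 : (r : ℝ) ≤ N := by
      refine hrN.le.trans ?_
      rw [div_le_iff₀ (by norm_num)]
      linarith
    exact_mod_cast h2

/-- For every weight `ω` that is bounded below by a positive constant on each `(0, N]`, in
particular for `ω(t) = exp(-t²)`, every norm-continuous semigroup `(a t)_{t > 0}` in
`ℓ¹(ℚ⁺, ω)` vanishes identically. -/
theorem result :
    (∀ ω : ℚ → ℝ, (∀ N : ℕ, ∃ c : ℝ, 0 < c ∧ ∀ q : ℚ, 0 < q → q ≤ N → c ≤ ω q) →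
      ∀ a : ℝ → ℚ → ℂ, ContSemigroup ω a → ∀ t, 0 < t → a t = 0) ∧
    (∀ a : ℝ → ℚ → ℂ, ContSemigroup (fun q => Real.exp (-(q : ℝ) ^ 2)) a →
      ∀ t, 0 < t → a t = 0) := by
  refine ⟨fun ω hω a ha t ht => main hω ha t ht, fun a ha t ht => main ?_ ha t ht⟩
  intro N
  refine ⟨Real.exp (-(N : ℝ) ^ 2), Real.exp_pos _, fun q hq hqN => ?_⟩
  apply Real.exp_le_exp.2
  have h1 : (0 : ℝ) < q := by exact_mod_cast hq
  have h2 : (q : ℝ) ≤ N := by exact_mod_cast hqN
  have h3 : (q : ℝ) ^ 2 ≤ (N : ℝ) ^ 2 := pow_le_pow_left₀ h1.le h2 2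
  linarith

end Pool.Agent.Results.MP_46f8bc_an.GaussianWeightNoSemigroup
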